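import Pool.Agent.H.MP_42fe4d_lc.Defs
import Pool.Agent.Lib.lead.CXGraphRed

namespace Pool.Agent.H.MP_42fe4d_lc

open Pool.Agent.Lib.CX Finset

abbrev W := ℕ × ℕ
abbrev F := List (Cl3 ℕ)

def kk (φ : F) : ℕ := 2 * (φ.length + 1)
def cl (φ : F) (i : ℕ) : Cl3 ℕ := φ.getD i ((3 * φ.length, true), (3 * φ.length, true), (3 * φ.length, true))
def lit (φ : F) (u : W) : ℕ × Bool := litOf (cl φ (u.1 / 2 % (φ.length + 1)), u.2)
def far (k p q : ℕ) : Prop := p ≠ q ∧ q ≠ p + 1 ∧ p ≠ q + 1 ∧ ¬(p = 2 * k ∧ q = 0) ∧ ¬(q = 2 * k ∧ p = 0)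
def adj (φ : F) (u v : W) : Prop := far (kk φ) u.1 v.1 ∧ ((lit φ u).1 = (lit φ v).1 → (lit φ u).2 = (lit φ v).2)
instance (φ u v) : Decidable (adj φ u v) := by unfold adj far; infer_instance

variable {V : Type} [DecidableEq V] (G : SimpleGraph V) (φ : F) (g : V → W)

theorem cq_le (hT : ∀ u, (g u).1 ≤ 2 * kk φ) (hA : ∀ u v, G.Adj u v ↔ adj φ (g u) (g v)) (K : Finset V)
    (h : G.IsClique K) : K.card ≤ kk φ := by
  have f : ∀ u ∈ K, ∀ v ∈ K, u ≠ v → far (kk φ) (g u).1 (g v).1 := fun u hu v hv e => ((hA u v).1 (h hu hv e)).1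
  have h1 := card_le_card (s := K.image (fun u => (g u).1) ∪ K.image fun u => if (g u).1 = 2 * kk φ then 0 else (g u).1 + 1)
    (t := range (2 * kk φ + 1)) (by
      intro x
      simp only [mem_union, mem_image, mem_range]
      rintro (⟨u, -, rfl⟩ | ⟨u, -, rfl⟩) <;> have := hT u <;> [omega; (split <;> omega)])
  rw [card_union_of_disjoint, card_image_of_injOn, card_image_of_injOn, card_range] at h1
  · omega
  · intro u hu v hv e
    by_contra n
    have := f u hu v hv n
    simp only [far] at this e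
    split_ifs at e <;> omega
  · exact fun u hu v hv e => by_contra fun n => (f u hu v hv n).1 e
  · simp only [disjoint_left, mem_image, not_exists, not_and]
    rintro _ ⟨u, hu, rfl⟩ v hv e
    by_cases n : u = v
    · subst n
      have : 0 < kk φ := by simp [kk]
      split_ifs at e <;> omega
    · have := f u hu v hv n
      simp only [far] at this
      split_ifs at e <;> omega

theorem sat_of (hT : ∀ u, (g u).1 ≤ 2 * kk φ ∧ (g u).2 < 3) (hA : ∀ u v, G.Adj u v ↔ adj φ (g u) (g v)) (K : Finset V)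
    (h : G.IsClique K) (hk : kk φ ≤ K.card) : Sat3 φ := by
  classical
  refine ⟨fun x => decide (∃ u ∈ K, lit φ (g u) = (x, true)), fun C hC => ?_⟩
  obtain ⟨c, c1, rfl⟩ := List.getElem_of_mem hC
  obtain ⟨u, hu, e⟩ : ∃ u ∈ K, (g u).1 / 2 % (φ.length + 1) = c := by
    by_contra! n
    have := card_le_card_of_injOn (s := K) (t := ((range (kk φ + 1)).erase c).erase (c + (φ.length + 1)))
      (fun u => (g u).1 / 2) (fun u hu => by
        have := n u hu
        have := (hT u).1
        simp only [coe_erase, Set.mem_diff, mem_coe, mem_range, Set.mem_singleton_iff]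
        refine ⟨⟨by omega, fun e => ?_⟩, fun e => ?_⟩
        · simp_all [Nat.mod_eq_of_lt (c1.trans (Nat.lt_succ_self _))]
        · simp_all [Nat.mod_eq_of_lt (c1.trans (Nat.lt_succ_self _))]) fun u hu v hv e => by
        by_contra n
        have := ((hA u v).1 (h hu hv n)).1
        simp only [far] at this e
        omega
    rw [card_erase_of_mem (by simp [kk]; omega), card_erase_of_mem (by simp [kk]; omega), card_range] at this
    have : 0 < kk φ := by simp [kk]
    omega
  rw [ok_iff]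
  refine ⟨(g u).2, (hT u).2, ?_⟩
  have e2 : litOf (φ[c], (g u).2) = lit φ (g u) := by simp [lit, e, cl, List.getD_eq_getElem?_getD, c1]
  rw [e2, Bool.eq_iff_iff, decide_eq_true_eq]
  constructor
  · rintro ⟨z, hz, e⟩
    by_cases n : z = u
    · rw [← n, e]
    · rw [← ((hA z u).1 (h hz hu n)).2 (by rw [e]), e]
  · exact fun h => ⟨u, hu, Prod.ext rfl h⟩

theorem anti (k : ℕ) (hk : 2 ≤ k) (h : ℕ → V) (hA : ∀ p ≤ 2 * k, ∀ q ≤ 2 * k, G.Adj (h p) (h q) ↔ far k p q)
    (hi : ∀ p ≤ 2 * k, ∀ q ≤ 2 * k, h p = h q → p = q) :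
    Partitionable G ((range (2 * k + 1)).image h) ∧ ((range (2 * k + 1)).image h).card = 2 * k + 1 ∧
      (G.induce ((range (2 * k + 1)).image h : Finset V)).indepNum ≤ 2 := by
  have c : ((range (2 * k + 1)).image h).card = 2 * k + 1 := by
    rw [card_image_of_injOn fun p hp q hq => hi p (by simpa [Nat.lt_succ_iff] using hp) q
      (by simpa [Nat.lt_succ_iff] using hq), card_range]
  refine ⟨⟨2, k, le_rfl, hk, c, fun v hv => ?_⟩, c, ?_⟩
  · obtain ⟨r, hr, rfl⟩ := mem_image.1 hv
    have hr : r ≤ 2 * k := by simpa [Nat.lt_succ_iff] using hr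
    let s : ℕ → ℕ := fun t => if r + t ≤ 2 * k then r + t else r + t - (2 * k + 1)
    have s1 : ∀ t ≤ 2 * k, s t ≤ 2 * k := fun t ht => by simp only [s]; split <;> omega
    have s2 : ∀ t ≤ 2 * k, ∀ u ≤ 2 * k, h (s t) = h (s u) → t = u := fun t ht u hu e => by
      have := hi _ (s1 t ht) _ (s1 u hu) e
      simp only [s] at this
      split_ifs at this <;> omega
    have s3 : ∀ t ≤ 2 * k, ∀ u ≤ 2 * k, G.Adj (h (s t)) (h (s u)) ↔ far k t u := fun t ht u hu => by
      rw [hA _ (s1 t ht) _ (s1 u hu)]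
      simp only [s, far]
      split_ifs <;> omega
    have s4 : ∀ v, v ∈ ((range (2 * k + 1)).image h).erase (h r) ↔ ∃ i < k, ∃ j < 2, h (s (2 * i + j + 1)) = v :=
      fun v => by
        simp only [mem_erase, mem_image, mem_range]
        constructor
        · rintro ⟨n, p, hp, rfl⟩
          have n' : p ≠ r := by rintro rfl; exact n rfl
          obtain ⟨t, t1, t2, t3⟩ : ∃ t, 1 ≤ t ∧ t ≤ 2 * k ∧ s t = p := by
            by_cases l : r < p
            · exact ⟨p - r, by omega, by omega, by simp only [s]; split <;> omega⟩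
            · exact ⟨p + (2 * k + 1) - r, by omega, by omega, by simp only [s]; split <;> omega⟩
          exact ⟨(t - 1) / 2, by omega, (t - 1) % 2, by omega, by rw [← t3]; congr 2; omega⟩
        · rintro ⟨i, i1, j, j1, rfl⟩
          refine ⟨fun e => ?_, _, Nat.lt_succ_of_le (s1 _ (by omega)), rfl⟩
          have : h r = h (s 0) := by simp [s, hr]
          have := s2 _ (by omega) _ (by omega) (e.trans this)
          omega
    constructor
    · refine ⟨fun j => (range k).image fun i => h (s (2 * i + j + 1)), fun j => ⟨?_, ?_⟩, fun i j n => ?_, fun v => ?_⟩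
      · rw [card_image_of_injOn, card_range]
        intro a ha b hb e
        simp only [coe_range, Set.mem_Iio] at ha hb
        have := s2 _ (by omega) _ (by omega) e
        omega
      · simp only [coe_image, coe_range]
        rintro _ ⟨a, ha, rfl⟩ _ ⟨b, hb, rfl⟩ n
        simp only [Set.mem_Iio] at ha hb
        have : a ≠ b := by rintro rfl; exact n rfl
        rw [s3 _ (by omega) _ (by omega)]
        simp only [far]; omega
      · simp only [disjoint_left, mem_image, mem_range, not_exists, not_and]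
        rintro _ ⟨a, ha, rfl⟩ b hb e
        have := s2 _ (by omega) _ (by omega) e
        omega
      · simp only [s4, mem_image, mem_range]
        exact ⟨fun ⟨i, a, j, b, e⟩ => ⟨⟨j, b⟩, i, a, e⟩, fun ⟨j, i, a, e⟩ => ⟨i, a, j, j.2, e⟩⟩
    · refine ⟨fun i => (range 2).image fun j => h (s (2 * i + j + 1)), fun j => ⟨?_, ?_⟩, fun i j n => ?_, fun v => ?_⟩
      · rw [card_image_of_injOn, card_range]
        intro a ha b hb e
        simp only [coe_range, Set.mem_Iio] at ha hb
        have := s2 _ (by omega) _ (by omega) e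
        omega
      · simp only [coe_image, coe_range]
        rintro _ ⟨a, ha, rfl⟩ _ ⟨b, hb, rfl⟩ n
        simp only [Set.mem_Iio] at ha hb
        rw [s3 _ (by omega) _ (by omega)]
        simp only [far]; omega
      · simp only [disjoint_left, mem_image, mem_range, not_exists, not_and]
        rintro _ ⟨a, ha, rfl⟩ b hb e
        have := s2 _ (by omega) _ (by omega) e
        omega
      · simp only [s4, mem_image, mem_range]
        exact ⟨fun ⟨i, a, j, b, e⟩ => ⟨⟨i, a⟩, j, b, e⟩, fun ⟨i, j, b, e⟩ => ⟨i, i.2, j, b, e⟩⟩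
  · obtain ⟨s, hs⟩ := (G.induce ((range (2 * k + 1)).image h : Finset V)).exists_isNIndepSet_indepNum
    rw [← hs.card_eq]
    by_contra! n
    obtain ⟨⟨a, a1⟩, ⟨b, b1⟩, ⟨c, c1⟩, ha, hb, hc, ab, ac, bc⟩ := two_lt_card_iff.1 n
    have e1 : ¬G.Adj a b := hs.isIndepSet ha hb ab
    have e2 : ¬G.Adj a c := hs.isIndepSet ha hc ac
    have e3 : ¬G.Adj b c := hs.isIndepSet hb hc bc
    simp only [coe_image, coe_range, Set.mem_image, Set.mem_Iio] at a1 b1 c1
    obtain ⟨a, a2, rfl⟩ := a1
    obtain ⟨b, b2, rfl⟩ := b1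
    obtain ⟨c, c2, rfl⟩ := c1
    have : a ≠ b := by rintro rfl; exact ab rfl
    have : a ≠ c := by rintro rfl; exact ac rfl
    have : b ≠ c := by rintro rfl; exact bc rfl
    rw [hA _ (by omega) _ (by omega)] at e1 e2 e3
    simp only [far] at e1 e2 e3
    omega

theorem big [Fintype V] {I : Finset V} {k : ℕ} (h : Partitionable G I) (h2 : (G.induce I).indepNum * k < I.card) :
    ∃ K : Finset V, G.IsClique K ∧ k ≤ K.card := by
  obtain ⟨a, w, a2, w2, c, h⟩ := h
  obtain ⟨v, hv⟩ := card_pos.1 (show 0 < I.card by omega)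
  obtain ⟨⟨f, f1, -⟩, ⟨g, g1, -, g2⟩⟩ := h v hv
  refine ⟨f ⟨0, by omega⟩, (f1 _).2, le_of_le_of_eq ?_ (f1 _).1.symm⟩
  have : (G.induce I).IsIndepSet ((g ⟨0, by omega⟩).subtype (· ∈ (I : Set V))) := fun u hu v hv e =>
    (g1 ⟨0, by omega⟩).2 (by simpa using hu) (by simpa using hv) fun e' => e (Subtype.ext e')
  have h3 := this.card_le_indepNum
  rw [card_subtype, filter_true_of_mem (p := fun x => x ∈ (I : Set V)) fun x hx =>
    mem_of_mem_erase ((g2 x).2 ⟨_, hx⟩), (g1 _).1] at h3
  by_contra! n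
  nlinarith [Nat.mul_le_mul_right k h3]

def vs (φ : F) : List W := List.range (2 * kk φ + 1) ×ˢ List.range 3
def gr (φ : F) : Gr := mkGr (vs φ) ((vs φ ×ˢ vs φ).filter fun e => adj φ e.1 e.2)
def inp (φ : F) : Inp := (gr φ, (gr φ).1.map fun _ => (1, kk φ))

theorem gr_adj (a u v) : (gr a).G.Adj u v ↔ adj a (mkGrEquiv _ _ u).1 (mkGrEquiv _ _ v).1 := by
  have : ∀ u v, (gr a).arc u v ↔ adj a (mkGrEquiv _ _ u).1 (mkGrEquiv _ _ v).1 := fun u v => by
    refine (mkGr_arc _ _ u v).trans ?_
    simp only [List.mem_filter, decide_eq_true_eq, and_iff_right_iff_imp]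
    exact fun _ => List.pair_mem_product.2 ⟨(mkGrEquiv _ _ u).2, (mkGrEquiv _ _ v).2⟩
  refine (and_congr Iff.rfl (or_congr (this u v) (this v u))).trans ⟨fun h => h.2.elim id fun h => ?_,
    fun h => ⟨by rintro rfl; exact h.1.1 rfl, .inl h⟩⟩
  exact ⟨by have := h.1; simp only [far] at this ⊢; omega, fun e => (h.2 e.symm).symm⟩

theorem gr_T (a u) : (mkGrEquiv (vs a) ((vs a ×ˢ vs a).filter fun e => adj a e.1 e.2) u).1.1 ≤ 2 * kk a ∧
    (mkGrEquiv (vs a) ((vs a ×ˢ vs a).filter fun e => adj a e.1 e.2) u).1.2 < 3 := by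
  have : (mkGrEquiv (vs a) ((vs a ×ˢ vs a).filter fun e => adj a e.1 e.2) u).1 ∈ vs a := (mkGrEquiv (vs a) _ u).2
  generalize (mkGrEquiv (vs a) ((vs a ×ˢ vs a).filter fun e => adj a e.1 e.2) u).1 = w at this
  simpa [Nat.lt_succ_iff] using List.pair_mem_product.1 this

theorem sum_x (φ) (K : Finset (Fin (inp φ).1.n)) : ∑ v ∈ K, (inp φ).x v = K.card / kk φ := by
  rw [sum_congr rfl (g := fun _ => (1 : ℚ) / kk φ) fun v _ => by
    have := v.2
    simp only [inp, Gr.n] at this
    simp [Inp.x, inp, List.getD_eq_getElem?_getD, this]]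
  simp [div_eq_mul_inv]

theorem inp_ok (φ) : (inp φ).ok := by
  have : 0 < kk φ := by simp [kk]
  refine ⟨by simp [inp], by simp [inp]; omega, fun K h => ?_⟩
  rw [sum_x, div_le_one (by exact_mod_cast this)]
  exact_mod_cast cq_le _ φ _ (fun u => (gr_T φ u).1) (gr_adj φ) K h

set_option synthInstance.maxSize 2000 in
theorem hard : NPHard fun a : {a : Inp // a.ok} => ∃ I, a.1.Viol I := by
  refine NPHard.of_sat3 (fun φ => ⟨inp φ, inp_ok φ⟩)
    (PT.subtype (by unfold inp gr vs adj far lit litOf cl kk; fun_prop) _) fun φ hv => ?_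
  have k0 : (0 : ℚ) < kk φ := by simp [kk]; positivity
  simp only [Inp.Viol, sum_x, lt_div_iff₀ k0]
  constructor
  · rintro ⟨v, h⟩
    let v' : ℕ → Bool := fun y => if y = 3 * φ.length then true else v y
    have : ∀ i, ∃ o < 3, v' (litOf (cl φ i, o)).1 = (litOf (cl φ i, o)).2 := fun i => by
      rw [← ok_iff]
      by_cases hi : i < φ.length
      · have e4 : cl φ i = φ[i] := by simp [cl, List.getD_eq_getElem?_getD, hi]
        have := hv _ (List.getElem_mem hi)
        simp only [Cl3.vars, List.forall_mem_cons] at this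
        simpa only [e4, Cl3.ok, v', this.1.ne, this.2.1.ne, this.2.2.1.ne, if_false] using h _ (List.getElem_mem hi)
      · simp [cl, v', Cl3.ok, List.getD_eq_getElem?_getD, List.getElem?_eq_none (not_lt.1 hi)]
    choose o o1 o2 using this
    have m : ∀ p, ∃ u : Fin (gr φ).n, p ≤ 2 * kk φ → (mkGrEquiv _ _ u).1 = (p, o (p / 2 % (φ.length + 1))) := fun p => by
      by_cases hp : p ≤ 2 * kk φ
      · exact ⟨(mkGrEquiv _ _).symm ⟨(p, o (p / 2 % (φ.length + 1))), List.pair_mem_product.2 ⟨by simpa [Nat.lt_succ_iff] using hp,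
          List.mem_range.2 (o1 _)⟩⟩, fun _ => by simp⟩
      · exact ⟨(mkGrEquiv _ _).symm ⟨(0, 0), by simp [vs]⟩, fun h => absurd h hp⟩
    choose u hu using m
    obtain ⟨a1, a2, a3⟩ := anti (gr φ).G (kk φ) (by simp [kk]) u (fun p hp q hq => by
      rw [gr_adj, hu p hp, hu q hq]
      exact and_iff_left fun e => by simp only [lit] at e ⊢; rw [← o2, ← o2, e]) fun p hp q hq e => by
      have := hu p hp
      rw [e, hu q hq] at this
      exact (Prod.mk.inj this).1.symm
    refine ⟨_, a1, ?_⟩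
    have := Nat.mul_le_mul_right (kk φ) a3
    exact_mod_cast this.trans_lt (lt_of_lt_of_eq (Nat.lt_succ_self _) a2.symm)
  · rintro ⟨I, h1, h2⟩
    obtain ⟨K, a, b⟩ := big _ h1 (by exact_mod_cast h2)
    exact sat_of _ φ _ (gr_T φ) (gr_adj φ) K a b

end Pool.Agent.H.MP_42fe4d_lc
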