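import Pool.Agent.Lib.lead.CXGraph

namespace Pool.Agent.H.MP_42fe4d_lc

open Pool.Agent.Lib.CX

variable {V : Type} [DecidableEq V]

/-- `S` is the disjoint union of `a` sets of size `b`, each with property `P` -/
def Splits (S : Finset V) (a b : ℕ) (P : Finset V → Prop) : Prop :=
  ∃ f : Fin a → Finset V, (∀ i, (f i).card = b ∧ P (f i)) ∧ (∀ i j, i ≠ j → Disjoint (f i) (f j)) ∧
    ∀ v, v ∈ S ↔ ∃ i, v ∈ f i

/-- the subgraph of `G` induced on `I` is partitionable -/
def Partitionable (G : SimpleGraph V) (I : Finset V) : Prop :=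
  ∃ a w, 2 ≤ a ∧ 2 ≤ w ∧ I.card = a * w + 1 ∧ ∀ v ∈ I,
    Splits (I.erase v) a w (fun K => G.IsClique K) ∧ Splits (I.erase v) w a (fun K => G.IsIndepSet K)

/-- a graph and, for each vertex, numerator and denominator of a rational number -/
abbrev Inp := Gr × List (ℕ × ℕ)

/-- the value at a vertex -/
def Inp.x (a : Inp) (v : Fin a.1.n) : ℚ := ((a.2.getD v (0, 1)).1 : ℚ) / (a.2.getD v (0, 1)).2

/-- one value in the unit interval for each vertex, and all clique inequalities hold -/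
def Inp.ok (a : Inp) : Prop :=
  a.2.length = a.1.n ∧ (∀ r ∈ a.2, 0 < r.2 ∧ r.1 ≤ r.2) ∧
    ∀ K : Finset (Fin a.1.n), a.1.G.IsClique K → ∑ v ∈ K, a.x v ≤ 1

/-- `I` gives a violated partitionable graph inequality -/
def Inp.Viol (a : Inp) (I : Finset (Fin a.1.n)) : Prop :=
  Partitionable a.1.G I ∧ ((a.1.G.induce I).indepNum : ℚ) < ∑ v ∈ I, a.x v

end Pool.Agent.H.MP_42fe4d_lc
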